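import Pool.Agent.H66.JT.Aty
import Pool.Agent.H50.AVN.Nta

/-!
# The codes of the target, the places below it with any order of their slopes

`jtU_any`: helper50's `jtU_of` without the hypothesis that the slope of the lower near place is at
most the slope of the upper one.
-/

set_option autoImplicit false

namespace Pool.JTY

open Finset Real MvPolynomial
open Pool.Agent.H49.Ent Pool.Agent.H32.Dense Pool.STK Pool.KA Pool.KSAT Pool.K2S Pool.PB Pool.GEN
open Pool.S6C Pool.RCD Pool.LA91 Pool.AVG96 Pool.AVG57 Pool.OWN68 Pool.OWN83 Pool.CDX Pool.AVG50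

variable {m : ℕ} {S : PCl m} {c : ℕ → Fin m} {r₀ v K : ℕ} {s₀ : ℝ} {sn : ℝ → ℕ → ℝ}
  {G : Set ℝ} {g : ℝ} {Sl : ℕ → ℝ}

/-- **The codes of the target**, from the rows, any order of the slopes of `v`, `v + 1`. -/
theorem jtU_any (hS : SlpG sn r₀ (v + 2) G g Sl) (hr : r₀ ≤ v)
    (hσ : 1 ≤ Sl (v + 2)) {hd : ℝ} (hh : 0 < hd) (hh1 : hd ≤ 1)
    (hraw : RawG S c sn G g hd (v + 2)) :
    JtU S c r₀ v K s₀ sn G g Sl
      (fun Cm κ R => LbR S c r₀ K sn G g (Cm * R) (Cm * R) (κ * R) (v + 2)) := by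
  intro e C ν₀ he hC hν
  have hS1 : ∀ l, r₀ ≤ l → l ≤ v + 2 → 1 ≤ Sl l := fun l a b => by
    rcases Nat.lt_or_ge l (v + 2) with h1 | h1
    · exact (hS.gt l a h1).le
    · obtain rfl : l = v + 2 := by omega
      exact hσ
  obtain ⟨Sb, hSb0, hSb⟩ := ex_max (v + 3) Sl
  have hSb1 : 1 ≤ Sb := hσ.trans (hSb (v + 2) (by omega))
  obtain ⟨ν₁, hν₁⟩ : ∃ ν₁, ν₁ = ν₀ / (4 * Sb) := ⟨_, rfl⟩
  have hν₁0 : 0 < ν₁ := by rw [hν₁]; positivity
  have hνS : 4 * (Sb * ν₁) = ν₀ := by rw [hν₁]; field_simp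
  obtain ⟨Cn, κ, d1, d2, H⟩ := jt_atV2 (s₀ := s₀) (K := K) hS hr hS1 hh hh1 hraw he hC
    hν₁0
  refine ⟨Cn + 2, κ, by linarith, d2, fun γ y A B Λ h hgA hgB => ?_⟩
  obtain ⟨ρ, hρ, H⟩ := H γ y A B Λ h hgA hgB
  refine ⟨ρ, hρ, ?_⟩
  intro R hR hRρ hlb w hw w1 x hwx x2 p s n q ν hp hs hn hx hq hqC hνν
  have hCnR : 0 < Cn * R := by positivity
  have eCn : (Cn + 2) * R = Cn * R + 2 * R := by ring
  have hνR : 0 < ν₀ * R := by positivity
  have hxw : 0 ≤ x - w := by linarith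
  have sv := hs v le_rfl (by omega)
  have s1 := hs (v + 1) (by omega) (by omega)
  have s2 := hs (v + 2) (by omega) le_rfl
  have e1 : Sl (v + 2) * (x - w) ≤ Sb * (x - w) :=
    mul_le_mul_of_nonneg_right (hSb (v + 2) (by omega)) hxw
  have e2 : 1 * (x - w) ≤ Sl v * (x - w) :=
    mul_le_mul_of_nonneg_right (hS1 v hr (by omega)) hxw
  have e3 : ν₁ * R ≤ x - w := by
    have h1 : Sb * (4 * (ν₁ * R)) ≤ Sb * (x - w) := by
      have h2 : Sb * (4 * (ν₁ * R)) = ν₀ * R := by rw [← hνS]; ring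
      have h3 := hx v hr (by omega)
      linarith
    have := le_of_mul_le_mul_left h1 hSb0
    have h2 := mul_pos hν₁0 hR
    linarith
  have e4 : ν₁ * R ≤ ν₀ * R / 4 := by
    have h1 : 1 * (ν₁ * R) ≤ Sb * (ν₁ * R) :=
      mul_le_mul_of_nonneg_right hSb1 (mul_pos hν₁0 hR).le
    have h2 : 4 * (Sb * (ν₁ * R)) = ν₀ * R := by rw [← hνS]; ring
    linarith
  have hxv := hx v hr (by omega)
  have hx1 := hx (v + 1) (by omega) le_rfl
  have hle : ∀ l, Sl l * (x - w) + ν ≤ q → Sl l ≤ Sl (v + 2) := by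
    intro l hl
    by_contra hc
    rw [not_le] at hc
    have h4 : Sl (v + 2) * (x - w) ≤ Sl l * (x - w) := mul_le_mul_of_nonneg_right hc.le hxw
    linarith
  refine H R hR hRρ (hlb.mono (by linarith) (by linarith) le_rfl) w hw w1 x hwx x2 p
    (nt2 s n q ν v) (q - ν) _ hp (fun l a b => ?_) ?_ (by linarith) ?_ (by linarith)
    (hle v hxv) (hle (v + 1) hx1) (by linarith) (by linarith) (by linarith) (by rw [s2]; linarith)
  · unfold nt2
    rw [if_pos (by omega)]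
    have := hn l a (by omega)
    linarith
  · unfold nt2
    rw [if_neg (by omega), if_pos rfl, sv]
    linarith
  · unfold nt2
    rw [if_neg (by omega), if_neg (by omega), s1]
    linarith

end Pool.JTY
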