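import Pool.Agent.H66.JT.Pfy
import Pool.Agent.H71.CDX.Cdw

/-!
# The codes of the target from a later window, near places with any slopes

`jt_atY`: as helper71's `jt_atN`, with effective slopes of the near places. `jt_atV2`: two near places,
no condition on the order of their slopes.
-/

set_option autoImplicit false

namespace Pool.JTY

open Finset Real MvPolynomial
open Pool.Agent.H49.Ent Pool.Agent.H32.Dense Pool.STK Pool.KA Pool.KSAT Pool.K2S Pool.PB Pool.GEN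
open Pool.S6C Pool.RCD Pool.LA91 Pool.OWN68 Pool.CHT Pool.AVG96 Pool.CDX
open Pool.GRD (LbP)
open Pool.AJW (CfB ctx cod_Fj_p)
open Pool.AJX (JetX LbX FwX ctxK_few)
open Pool.AVG57 (CdC nd ddN ntN)

variable {m : ℕ} {γ : ∀ J : ℕ, Fam m J → Type} {S : PCl m}
  {y : ∀ (J : ℕ) (F : Fam m J), F.Ω → γ J F} {c : ℕ → Fin m} {r₀ r K : ℕ}
  {sn : ℝ → ℕ → ℝ} {G : Set ℝ} {g : ℝ} {Sl : ℕ → ℝ}

/-- **The codes of all orders of the target from the record of a later window**, the places `l ≥ r₁`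
below the target known to near digits only; effective slopes `Se l ≥ Sl l` of these places, which
increase towards the target. -/
theorem jt_atY {s₀ : ℝ} (r₁ : ℕ) {Se : ℕ → ℝ} (hS : SlpG sn r₀ r G g Sl) (hr : r₀ ≤ r)
    (hse : ∀ l, r₀ ≤ l → l < r → Sl l ≤ Se l) (hse1 : ∀ l, r₀ ≤ l → l < r₁ → l < r → Se l = Sl l)
    (hS1 : ∀ l, r₀ ≤ l → l ≤ r → 1 ≤ Sl l) {hd : ℝ} (hh : 0 < hd) (hh1 : hd ≤ 1)
    (hraw : RawG S c sn G g hd r) {e C ν₀ : ℝ} (he : 0 < e)
    (hC : 0 < C) (hν : 0 < ν₀) :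
    ∃ Cn κ : ℝ, 0 < Cn ∧ 0 < κ ∧
    ∀ (γ : ∀ J : ℕ, Fam m J → Type) (y : ∀ (J : ℕ) (F : Fam m J), F.Ω → γ J F) (A B Λ : ℝ),
    GCh S (fun J F => ptr F J) y c r₀ r s₀ A B Λ sn G → A < g → g < B →
    ∃ ρ : ℝ, 0 < ρ ∧ ∀ R : ℝ, 0 < R → R < ρ →
    LbR S c r₀ K sn G g (Cn * R) (2 * R) (κ * R) r →
    ∀ w ∈ G, g - R ≤ w → ∀ x : ℝ, w ≤ x → x ≤ g + R → ∀ (p n : ℕ → ℝ) (q N : ℝ),
    (∀ l, r₀ ≤ l → l ≤ r → sn w l - κ * R ≤ p l) →
    (∀ l, r₀ ≤ l → l < r₁ → l < r → sn w l + Cn * R ≤ n l) →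
    (∀ l, r₀ ≤ l → r₁ ≤ l → l < r → sn w l + q + ((r : ℝ) - l) * (ν₀ * R) ≤ n l ∧
      Se l * (x - w) ≤ q) →
    (∀ l l', r₀ ≤ l → r₁ ≤ l → l ≤ l' → l' < r → Se l ≤ Se l') →
    (∀ l, r₀ ≤ l → r₁ ≤ l → l < r → Se l ≤ Sl r) → ν₀ * R ≤ q → q ≤ C * R →
    q + ν₀ * R ≤ Sl r * (x - w) → N ≤ sn w r + q →
    CdC S y c r K 0 w x (p r) N (e * R)
      (qJets m c r₀ r (K + 2) (fun _ _ => w) (fun l _ => p l)
        (fun l j' => n l - (j' : ℝ) * w)) := by
  classical
  obtain ⟨Sb, hSb0, hSb'⟩ := ex_max (r + 1) (fun l => max (Sl l) (Se l))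
  have hSb : ∀ l < r + 1, Sl l ≤ Sb := fun l hl => (le_max_left _ _).trans (hSb' l hl)
  have hSe : ∀ l < r + 1, Se l ≤ Sb := fun l hl => (le_max_right _ _).trans (hSb' l hl)
  have hSb1 : 1 ≤ Sb := (hS1 r hr le_rfl).trans (hSb r (by omega))
  obtain ⟨δ, hδ, H⟩ := jt_F1Y K hh hh1 (ε := e / (2 * (C + 1))) (by positivity) r
  obtain ⟨Gp, hGp⟩ : ∃ Gp : ℝ, Gp = 2 * Sb + 2 + ν₀ := ⟨_, rfl⟩
  have hGp0 : 0 < Gp := by rw [hGp]; positivity
  have hr0 : (0 : ℝ) ≤ r := Nat.cast_nonneg r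
  have hK0 : (0 : ℝ) ≤ K := Nat.cast_nonneg K
  obtain ⟨Cn, hCn⟩ : ∃ Cn : ℝ, Cn = C + ν₀ + (r + 1) * Gp + 2 := ⟨_, rfl⟩
  have hCn0 : 0 < Cn := by rw [hCn]; positivity
  obtain ⟨T, hT⟩ : ∃ T : ℝ, T = (K : ℝ) + 40 := ⟨_, rfl⟩
  have hT0 : 0 < T := by rw [hT]; positivity
  -- the error of the levels
  obtain ⟨κ, hκ⟩ : ∃ κ : ℝ, κ = min (min (1 / (16 * (Sb * T))) (ν₀ / (16 * (Sb * T))))
    (δ * ν₀ / (2 * (r + 1))) := ⟨_, rfl⟩
  have k0 : 0 < κ := by rw [hκ]; positivity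
  have k1 : Sb * T * κ ≤ 1 / 16 := by
    have : κ ≤ 1 / (16 * (Sb * T)) := by rw [hκ]; exact (min_le_left _ _).trans (min_le_left _ _)
    calc Sb * T * κ ≤ Sb * T * (1 / (16 * (Sb * T))) := mul_le_mul_of_nonneg_left this (by positivity)
      _ = 1 / 16 := by field_simp
  have k2 : Sb * T * κ ≤ ν₀ / 16 := by
    have : κ ≤ ν₀ / (16 * (Sb * T)) := by rw [hκ]; exact (min_le_left _ _).trans (min_le_right _ _)
    calc Sb * T * κ ≤ Sb * T * (ν₀ / (16 * (Sb * T))) :=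
          mul_le_mul_of_nonneg_left this (by positivity)
      _ = ν₀ / 16 := by field_simp
  have k3 : r * κ ≤ δ * ν₀ / 2 := by
    have : κ ≤ δ * ν₀ / (2 * (r + 1)) := by rw [hκ]; exact min_le_right _ _
    calc (r : ℝ) * κ ≤ (r + 1) * κ := mul_le_mul_of_nonneg_right (by linarith) k0.le
      _ ≤ (r + 1) * (δ * ν₀ / (2 * (r + 1))) := mul_le_mul_of_nonneg_left this (by positivity)
      _ = δ * ν₀ / 2 := by field_simp
  obtain ⟨M', hM'⟩ : ∃ M' : ℝ, M' = ((r * (K + 3) : ℕ) : ℝ) := ⟨_, rfl⟩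
  have hM'0 : 0 ≤ M' := by rw [hM']; positivity
  obtain ⟨ρ₃, hρ₃, H3⟩ := hraw (δ * ν₀ / 4) (C + 1) (by positivity) (by positivity)
  obtain ⟨ρ₁, hρ₁, H1⟩ := hS.gap κ k0
  obtain ⟨Z, hZ⟩ : ∃ Z : ℝ, Z = Cn + 2 * Sb + 40 := ⟨_, rfl⟩
  have hZ0 : 0 < Z := by rw [hZ]; positivity
  refine ⟨Cn + (2 * Z + 1), κ, by positivity, k0, ?_⟩
  intro γ y A B Λ h hgA hgB
  obtain ⟨C₀, htm⟩ := h.tm
  have hΛ := h.Λ0
  have hA0 := h.A0
  have hB1 := gch_B1 h
  obtain ⟨ρ₂, hρ₂, H2⟩ := lds_at h hgA hgB hS hr (Sb := Sb) (M := 3) (κ := κ)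
    (fun l a b => ⟨hS1 l a b, hSb l (by omega)⟩) (by norm_num) k0
  refine ⟨min (min ρ₁ ρ₂) (min (ρ₃ / 2) (min (min ((g - A) / 3) ((B - g) / 3))
    (Λ / (2 * Z)))), ?_, ?_⟩
  · exact lt_min (lt_min hρ₁ hρ₂) (lt_min (by positivity) (lt_min (lt_min (by linarith)
      (by linarith)) (by positivity)))
  intro R hR hRρ hlb w hw w1 x hwx x2 p n q N hp hn1 hn2 hSm hSr hq1 hqC hqx hN
  have r1 : R < ρ₁ := hRρ.trans_le ((min_le_left _ _).trans (min_le_left _ _))
  have r2 : R < ρ₂ := hRρ.trans_le ((min_le_left _ _).trans (min_le_right _ _))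
  have hR' := hRρ.trans_le (min_le_right _ _)
  have r3 : R < ρ₃ / 2 := hR'.trans_le (min_le_left _ _)
  have r5 : R < (g - A) / 3 := hR'.trans_le ((min_le_right _ _).trans
    ((min_le_left _ _).trans (min_le_left _ _)))
  have r6 : R < (B - g) / 3 := hR'.trans_le ((min_le_right _ _).trans
    ((min_le_left _ _).trans (min_le_right _ _)))
  have r7 : R < Λ / (2 * Z) := hR'.trans_le ((min_le_right _ _).trans (min_le_right _ _))
  rw [lt_div_iff₀ (by positivity)] at r7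
  obtain ⟨g₀, hg₀'⟩ : ∃ g₀, g₀ = (2 * Z + 1) * R := ⟨_, rfl⟩
  have hg₀ : 0 < g₀ := by rw [hg₀']; positivity
  have r8 : R * (2 * Z) < g₀ := by
    rw [hg₀']
    linarith
  have hCnR0 : 0 < Cn * R := mul_pos hCn0 hR
  have hCn' : (Cn + (2 * Z + 1)) * R = Cn * R + g₀ := by rw [hg₀']; ring
  rw [hCn'] at hlb
  have hn1 : ∀ l, r₀ ≤ l → l < r₁ → l < r → sn w l + Cn * R ≤ n l := fun l a b b' => by
    have := hn1 l a b b'
    rw [hCn'] at this
    linarith
  have hw2 : w ≤ g + R := hwx.trans x2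
  have hwA : A ≤ w := by linarith
  have hwB : w < B := by linarith
  have hνR : 0 < ν₀ * R := by positivity
  have hq0 : 0 < q := by linarith
  have hκR0 : 0 < κ * R := by positivity
  obtain ⟨gp, hgp⟩ : ∃ gp, gp = Sb * (κ * R) := ⟨_, rfl⟩
  have hgpT : T * gp ≤ R / 16 := by
    have e1 : T * gp = Sb * T * κ * R := by rw [hgp]; ring
    have := mul_le_mul_of_nonneg_right k1 hR.le
    rw [e1]
    linarith
  have hgpν : T * gp ≤ ν₀ * R / 16 := by
    have e1 : T * gp = Sb * T * κ * R := by rw [hgp]; ring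
    have := mul_le_mul_of_nonneg_right k2 hR.le
    rw [e1]
    linarith
  have hκgp : κ * R ≤ gp := by
    have : 1 * (κ * R) ≤ Sb * (κ * R) := mul_le_mul_of_nonneg_right hSb1 (by positivity)
    rw [hgp]
    linarith
  have hgp0 : 0 < gp := by linarith
  have hTgp : T * gp = K * gp + 40 * gp := by rw [hT]; ring
  have hKgp : 0 ≤ K * gp := by positivity
  -- the label window
  obtain ⟨b, hb, b1, b2, E, rd, H4a, H4b⟩ := (hlb.mono (g₁ := g₀) (by linarith) le_rfl le_rfl)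
    w hw (by linarith) (by linarith)
  have b1 := b1.le
  have b2 := b2.le
  have hbA : A ≤ b := by linarith only [b1, w1, r5, hκgp, hTgp, hgpT, hKgp, hgp0, hR]
  have hbB : b < B := by linarith
  -- the later window
  obtain ⟨x', hx', x3, x4⟩ : ∃ x' ∈ G, x - κ * R ≤ x' ∧ x' ≤ x := by
    exact H1 R hR r1 x (by linarith) x2
  have hSr0 : Sl r * (x - w) ≤ Sb * (x - w) :=
    mul_le_mul_of_nonneg_right (hSb r (by omega)) (by linarith)
  have hwx' : w ≤ x' := by
    by_contra hc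
    rw [not_le] at hc
    have h1 : Sb * (x - w) ≤ Sb * (κ * R) := mul_le_mul_of_nonneg_left (by linarith) hSb0.le
    linarith
  have L := H2 R hR r2
  obtain ⟨u₁, rc, hrc, hch⟩ := h.ch w hw hwA hwB
  have hxw : x - w ≤ 2 * R := by linarith
  have hxw' : x' - w ≤ x - w := by linarith
  have hwb : w - b ≤ κ * R := by linarith
  have hS0 : ∀ l, r₀ ≤ l → l ≤ r → 0 ≤ Sl l := fun l a b => by linarith [hS1 l a b]
  have hSlΔ : ∀ l, r₀ ≤ l → l ≤ r → Sl l * (x' - w) ≤ 2 * Sb * R := fun l a b => by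
    calc Sl l * (x' - w) ≤ Sb * (x' - w) :=
          mul_le_mul_of_nonneg_right (hSb l (by omega)) (by linarith)
      _ ≤ Sb * (2 * R) := mul_le_mul_of_nonneg_left (by linarith) hSb0.le
      _ = 2 * Sb * R := by ring
  have hbw : g - 3 * R ≤ b := by linarith
  have hxo : x' ≤ g + 3 * R := by linarith
  have hup := fun l a b' => L.up (i := l) a b' hw hx' (by linarith) hwx' hxo
  have hub := fun l a b' => L.up (i := l) a b' hb hw hbw b2 (by linarith)
  have hSlb : ∀ l, r₀ ≤ l → l ≤ r → Sl l * (w - b) ≤ gp := fun l a b' => by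
    rw [hgp]
    exact mul_le_mul (hSb l (by omega)) hwb (by linarith) hSb0.le
  have hSlb0 : ∀ l, r₀ ≤ l → l ≤ r → 0 ≤ Sl l * (w - b) := fun l a b' =>
    mul_nonneg (hS0 l a b') (by linarith)
  -- levels at `b`
  have hlo : ∀ l, r₀ ≤ l → l ≤ r → sn b l - gp ≤ sn w l := fun l a b' => by
    have h1 := (hub l a b').1
    have h2 := hSlb0 l a b'
    linarith
  have hhi : ∀ l, r₀ ≤ l → l ≤ r → sn w l ≤ sn b l + 2 * gp := fun l a b' => by
    have h1 := (hub l a b').2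
    have h2 := hSlb l a b'
    linarith
  have hGpR : Gp * R = 2 * Sb * R + 2 * R + ν₀ * R := by rw [hGp]; ring
  have hGpR0 : 0 < Gp * R := by positivity
  have hCnR : Cn * R = C * R + ν₀ * R + (r + 1) * (Gp * R) + 2 * R := by rw [hCn]; ring
  have hZR : Z * R = Cn * R + 2 * Sb * R + 40 * R := by rw [hZ]; ring
  have hSbR : 0 < Sb * R := by positivity
  have hrG : 0 ≤ r * (Gp * R) := by positivity
  have hCR : 0 < C * R := by positivity
  -- the digits
  obtain ⟨st, hst⟩ : ∃ st : ℕ → ℝ, st = fun l => if l < r₁ then ((r : ℝ) - l) * (Gp * R)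
    else ((r : ℝ) - 1 - l) * (ν₀ * R) := ⟨_, rfl⟩
  have hνG : ν₀ * R ≤ Gp * R := by linarith
  have hst1 : ∀ l < r₁, st l = ((r : ℝ) - l) * (Gp * R) := fun l hl => by
    rw [hst]
    simp only [if_pos hl]
  have hst2 : ∀ l, r₁ ≤ l → st l = ((r : ℝ) - 1 - l) * (ν₀ * R) := fun l hl => by
    rw [hst]
    simp only [if_neg (not_lt.2 hl)]
  obtain ⟨nn, hnn⟩ : ∃ nn : ℕ → ℝ, nn = fun l => sn w l + (q + ν₀ * R / 2) + st l := ⟨_, rfl⟩
  have hli : ∀ l < r, 0 ≤ st l ∧ st l ≤ r * (Gp * R) := fun l hl => by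
    have e1 : (l : ℝ) + 1 ≤ r := by exact_mod_cast hl
    have e2 : (0 : ℝ) ≤ l := Nat.cast_nonneg l
    rcases Nat.lt_or_ge l r₁ with h1 | h1
    · rw [hst1 l h1]
      exact ⟨mul_nonneg (by linarith) hGpR0.le,
        mul_le_mul_of_nonneg_right (by linarith) hGpR0.le⟩
    · rw [hst2 l h1]
      exact ⟨mul_nonneg (by linarith) hνR.le,
        mul_le_mul (by linarith) hνG hνR.le hr0⟩
  have hnl : ∀ l, nn l = sn w l + (q + ν₀ * R / 2) + st l := fun l => by
    rw [hnn]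
  have hnn1 : ∀ l, r₀ ≤ l → l < r → nn l ≤ n l := by
    intro l a b
    rw [hnl]
    rcases Nat.lt_or_ge l r₁ with h1 | h1
    · have := hn1 l a h1 b
      linarith [(hli l b).2]
    · have h3 := (hn2 l a h1 b).1
      rw [hst2 l h1]
      have h4 : ((r : ℝ) - l) * (ν₀ * R) = ((r : ℝ) - 1 - l) * (ν₀ * R) + ν₀ * R := by ring
      linarith
  -- the steps of the digits
  have hstepG : ∀ l l' : ℕ, l' < l → l < r → l' < r₁ → st l + Gp * R ≤ st l' :=
    fun l l' hl hlr hl' => by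
    have e1 : (l' : ℝ) + 1 ≤ l := by exact_mod_cast hl
    have e3 : (l : ℝ) + 1 ≤ r := by exact_mod_cast hlr
    rw [hst1 l' hl']
    rcases Nat.lt_or_ge l r₁ with h1 | h1
    · rw [hst1 l h1]
      have := mul_le_mul_of_nonneg_right e1 hGpR0.le
      linarith
    · rw [hst2 l h1]
      have e2 : ((r : ℝ) - 1 - l) * (ν₀ * R) ≤ ((r : ℝ) - 1 - l) * (Gp * R) :=
        mul_le_mul_of_nonneg_left hνG (by linarith)
      have := mul_le_mul_of_nonneg_right e1 hGpR0.le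
      linarith
  have hstG : ∀ l < r, l < r₁ → Gp * R ≤ st l := fun l hl hl' => by
    have e1 : (l : ℝ) + 1 ≤ r := by exact_mod_cast hl
    rw [hst1 l hl']
    have := mul_le_mul_of_nonneg_right (show (1 : ℝ) ≤ (r : ℝ) - l by linarith) hGpR0.le
    linarith
  have hstepN : ∀ l l' : ℕ, l' < l → l < r → r₁ ≤ l' → st l + ν₀ * R ≤ st l' :=
    fun l l' hl hlr hl' => by
    have e1 : (l' : ℝ) + 1 ≤ l := by exact_mod_cast hl
    rw [hst2 l' hl', hst2 l (hl'.trans hl.le)]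
    have := mul_le_mul_of_nonneg_right e1 hνR.le
    linarith
  have hstep : ∀ l l' : ℕ, l' < l → l < r → st l + ν₀ * R ≤ st l' := fun l l' hl hlr => by
    rcases Nat.lt_or_ge l' r₁ with h1 | h1
    · exact (by linarith : _ ≤ st l + Gp * R).trans (hstepG l l' hl hlr h1)
    · exact hstepN l l' hl hlr h1
  have HB : DgB r₀ r (fun l => sn w l) nn Λ gp := by
    refine ⟨fun l a b => ?_, fun l a b => ?_, fun l a b l' a' b' => ?_⟩
    · show sn w l + 30 * gp ≤ nn l
      rw [hnl]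
      linarith [(hli l b).1]
    · show nn l + 30 * gp ≤ sn w l + Λ
      rw [hnl]
      linarith [(hli l b).2]
    · show nn l - sn w l + 30 * gp ≤ nn l' - sn w l'
      rw [hnl, hnl]
      linarith [hstep l l' b' b]
  have HN : DgN r₀ r (fun l => sn w l) nn Sl (w - b) Λ gp := by
    refine ⟨HB.lo, fun l a b' => ?_, fun l a b' l' a' b'' => ?_⟩
    · show nn l + (Sl l + 1) * (w - b) + 30 * gp ≤ sn w l + Λ
      rw [hnl]
      have e1 : (Sl l + 1) * (w - b) = Sl l * (w - b) + (w - b) := by ring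
      rw [e1]
      linarith [(hli l b').2, hSlb l a b'.le]
    · show nn l - sn w l + Sl l * (w - b) + 30 * gp ≤ nn l' - sn w l'
      rw [hnl, hnl]
      linarith [hstep l l' b'' b', hSlb l a b'.le]
  obtain ⟨h', hh'⟩ : ∃ h' : ℝ, h' = δ * ν₀ * R / (8 * (M' + 1) * (M' + 1)) := ⟨_, rfl⟩
  have hh'0 : 0 < h' := by rw [hh']; positivity
  have hJ0 := all_JO (f := fun J F => ptr F J) (y := y) (Jm := K + 2) htm hch hΛ (by linarith)
    hgp0 HB (pw := p)
    (fun l a b => by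
      show sn w l - gp ≤ p l
      linarith [hp l a b.le])
    (Nf := fun l j' => n l - (j' : ℝ) * w)
    (fun l a b j hj => by linarith [hnn1 l a b])
    h.pt (gch_kn h hwB.le) hh'0
  obtain ⟨nb, hnb⟩ : ∃ nb : ℕ → ℝ, nb = fun l => nn l - ((K + 2 : ℕ) : ℝ) * (w - b) := ⟨_, rfl⟩
  have hKb : ((K + 2 : ℕ) : ℝ) * (w - b) ≤ K * gp + 2 * gp := by
    push_cast
    have : ((K : ℝ) + 2) * (w - b) ≤ (K + 2) * gp := mul_le_mul_of_nonneg_left (by linarith)
      (by positivity)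
    linarith
  have hKb0 : 0 ≤ ((K + 2 : ℕ) : ℝ) * (w - b) := mul_nonneg (Nat.cast_nonneg _) (by linarith)
  have hnbl : ∀ l, nb l = nn l - ((K + 2 : ℕ) : ℝ) * (w - b) := fun l => by rw [hnb]
  have hJ1 := JO.dn (n := nb) (sv := fun l => sn b l) htm hch hΛ (by linarith) hgp0 HN
    (fun l a b' => hS0 l a b'.le) b2 (fun l a b' => by
      show sn w l - Sl l * (w - b) - gp ≤ sn b l
      linarith [(hub l a b'.le).2])
    (fun l a b' j hj => by
      show nn l ≤ nn l - (j : ℕ) * w + (j : ℕ) * w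
      linarith) (fun l a b' => by
      show nb l + ((K + 2 : ℕ) : ℝ) * (w - b) ≤ nn l
      rw [hnbl]
      linarith) (by linarith : 0 < gp / 8) hh'0.le hJ0
    (fun l a b' j M => gch_exs h hw hwA hwB a b'.le j M) h.pt (gch_kn h hwB.le) hh'0
  have hx1 : x ≤ 1 := by linarith
  have hJ2 : JO S (fun J F => ptr F J) (vg x) y _ c r₀ r b _ _ (K + 2) _ _ :=
    fun l a b' j hj => (hJ1 l a b' j hj).up hwx hx1
  -- the target
  obtain ⟨qb, hqb⟩ : ∃ qb, qb = sn w r - sn b r + q := ⟨_, rfl⟩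
  have hqb1 : q - gp ≤ qb := by
    rw [hqb]
    linarith [hlo r hr le_rfl]
  have hqb2 : qb ≤ q + 2 * gp := by
    rw [hqb]
    linarith [hhi r hr le_rfl]
  have hqb3 : ν₀ * R / 2 ≤ qb := by linarith
  have hqb0 : 0 < qb := by linarith
  have hδqb : δ * ν₀ * R / 2 ≤ δ * qb := by
    have := mul_le_mul_of_nonneg_left hqb3 hδ.le
    linarith
  have hEr := H4a r hr le_rfl
  have hbΛ : b + Λ - b = Λ := by ring
  obtain ⟨e₀, he₀, HP⟩ := H L (fun l a b' => ⟨hse l a b', hSe l (by omega)⟩)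
    (f := fun J F => ptr F J) (y := y)
    h.pt (w := b) (x := x') (a := x) (Ub := b + Λ) (q := qb) (g₀ := g₀ / 2) (e₁ := gp / 8)
    (n := nb) (E := E) (rd := rd) (Q := qJets m c r₀ r (K + 2) (fun _ _ => w) (fun l _ => p l)
        (fun l j' => n l - (j' : ℝ) * w))
    (by
      rw [hbΛ]
      exact gch_kn h hbB.le) hb hx' hbw (b2.trans hwx') hxo x4 hx1 (by linarith) (by linarith) hqb0
    (by linarith) hEr.2.2.2.2.1 (by
      show sn b r + qb + E r + g₀ / 2 ≤ 1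
      linarith [hEr.2.2.2.2.2]) (by linarith)
    (fun l a b => ⟨(H4a l a b).1, (H4a l a b).2.1⟩)
    (fun l a b => ⟨(H4a l a b).2.2.1, by linarith [(H4a l a b).2.2.2.1]⟩)
    (fun l a b' => by
      rw [hnbl, hnl]
      linarith [(H4a l a b'.le).2.2.2.2.2, (hli l b').2, hhi l a b'.le])
    (by linarith)
    (fun e' he' hle => by
      rw [hbΛ]
      refine JO.ctx htm (lt_min (by linarith) (by linarith) : 0 < min (gp / 8) (gp / 8)) (by positivity) hJ2 (by linarith)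
        (b2.trans hwx) hx1 hΛ.le (fun i a b' => (H4a i a b'.le).2.1)
        (fun i a b' => (H4a i a b'.le).2.2.1) (gch_kn h hbB.le) ?_ (Nat.le_succ r) he'
        (le_min hle hle)
      rw [← hM']
      have e2 : M' * ((M' + 1) * h' + h') ≤ δ * ν₀ * R / 4 := by
        rw [hh']
        have e3 : M' * ((M' + 1) * (δ * ν₀ * R / (8 * (M' + 1) * (M' + 1))) +
            δ * ν₀ * R / (8 * (M' + 1) * (M' + 1))) =
            M' * (M' + 2) / ((M' + 1) * (M' + 1)) * (δ * ν₀ * R / 8) := by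
          field_simp
          ring
        have e4 : M' * (M' + 2) / ((M' + 1) * (M' + 1)) ≤ 1 := by
          rw [div_le_one (by positivity)]
          have e6 : M' * (M' + 2) + 1 = (M' + 1) * (M' + 1) := by ring
          linarith only [e6]
        have e5 : 0 < δ * ν₀ * R / 8 := by positivity
        rw [e3]
        have := mul_le_mul_of_nonneg_right e4 e5.le
        linarith
      have e3 : 0 < δ * ν₀ * R := by positivity
      linarith)
    (fun l a b' => by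
      show sn x' l + (Se l - Sl l) * (x' - b) + 20 * Sb * (κ * R) ≤ nb l
      have e1 : 20 * Sb * (κ * R) = 20 * gp := by rw [hgp]; ring
      rw [e1, hnbl, hnl]
      have e2 := (hup l a b'.le).2
      rcases Nat.lt_or_ge l r₁ with h1 | h1
      · have e3 := hstG l b' h1
        have e5 := hSlΔ l a b'.le
        rw [hse1 l a h1 b', sub_self, zero_mul]
        linarith
      · have h3 := (hn2 l a h1 b').2
        have h6 := hse l a b'
        have h4 : Se l * (x' - w) ≤ Se l * (x - w) :=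
          mul_le_mul_of_nonneg_left hxw' ((hS0 l a b'.le).trans h6)
        have h5 := (hli l b').1
        have h7 : (Se l - Sl l) * (w - b) ≤ gp := by
          rw [hgp]
          exact mul_le_mul (by linarith [hSe l (by omega), hS0 l a b'.le]) hwb (by linarith) hSb0.le
        have h8 : (Se l - Sl l) * (x' - b) = Se l * (x' - w) - Sl l * (x' - w) +
          (Se l - Sl l) * (w - b) := by ring
        linarith)
    (fun l a b' => by
      show nb l + 20 * Sb * (κ * R) ≤ sn b l + (b + Λ - b)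
      have e1 : 20 * Sb * (κ * R) = 20 * gp := by rw [hgp]; ring
      rw [e1, hnbl, hnl]
      linarith [(hli l b').2, hhi l a b'.le])
    (fun l a b' l' a' b'' => by
      show nb l - sn b l + max 0 (Se l' - Se l) * (x' - b) + 20 * Sb * (κ * R) ≤ nb l' - sn b l'
      have e1 : 20 * Sb * (κ * R) = 20 * gp := by rw [hgp]; ring
      rw [e1, hnbl, hnbl, hnl, hnl]
      rcases Nat.lt_or_ge l' r₁ with h1 | h1
      · have e2 : max 0 (Se l' - Se l) ≤ Sb := max_le hSb0.le (by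
          linarith [hSe l' (by omega), hS0 l a b'.le, hse l a b'])
        have e3 : max 0 (Se l' - Se l) * (x' - b) ≤ Sb * (2 * R + κ * R) :=
          mul_le_mul e2 (by linarith) (by linarith) hSb0.le
        have e4 : Sb * (2 * R + κ * R) = 2 * Sb * R + gp := by rw [hgp]; ring
        linarith [hstepG l l' b'' b' h1, hhi l a b'.le, hlo l' a' (by omega)]
      · have e2 : max 0 (Se l' - Se l) = 0 := max_eq_left (by
          linarith [hSm l' l a' h1 b''.le b'])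
        rw [e2]
        linarith [hstep l l' b'' b', hhi l a b'.le, hlo l' a' (by omega)])
    (fun l a b' => by
      show qb + max 0 (Se l - Sl r) * (x' - b) + 20 * Sb * (κ * R) ≤ nb l - sn b l
      have e1 : 20 * Sb * (κ * R) = 20 * gp := by rw [hgp]; ring
      rw [e1, hnbl, hnl]
      rcases Nat.lt_or_ge l r₁ with h1 | h1
      · have e2 : max 0 (Se l - Sl r) ≤ Sb := max_le hSb0.le (by
          linarith [hSe l (by omega), hS0 r hr le_rfl])
        have e3 : max 0 (Se l - Sl r) * (x' - b) ≤ Sb * (2 * R + κ * R) :=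
          mul_le_mul e2 (by linarith) (by linarith) hSb0.le
        have e4 : Sb * (2 * R + κ * R) = 2 * Sb * R + gp := by rw [hgp]; ring
        linarith [hstG l b' h1, hlo l a b'.le]
      · have e2 : max 0 (Se l - Sl r) = 0 := max_eq_left (by linarith [hSr l a h1 b'])
        rw [e2]
        linarith [(hli l b').1, hlo l a b'.le])
    (by
      show sn b r + qb + 20 * Sb * (κ * R) ≤ sn x' r
      have e1 : 20 * Sb * (κ * R) = 20 * gp := by rw [hgp]; ring
      rw [e1, hqb]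
      have e2 := (hup r hr le_rfl).1
      have e3 : Sl r * (x - x') ≤ Sb * (κ * R) :=
        mul_le_mul (hSb r (by omega)) (by linarith) (by linarith) hSb0.le
      have e4 : Sl r * (x' - w) = Sl r * (x - w) - Sl r * (x - x') := by ring
      rw [← hgp] at e3
      linarith)
    (by
      show qb + 20 * Sb * (κ * R) ≤ b + Λ - b
      have e1 : 20 * Sb * (κ * R) = 20 * gp := by rw [hgp]; ring
      rw [e1]
      linarith)
    (by
      have e1 : (r : ℝ) * (κ * R) = r * κ * R := by ring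
      rw [e1]
      have e2 := mul_le_mul_of_nonneg_right k3 hR.le
      linarith)
    (fun q' c1 c2 => by
      refine (H3 (2 * R) (by positivity) (by linarith) b hb (by linarith) (by linarith) q' c1
        (by
          have e4 : (C + 1) * (2 * R) = 2 * (C * R) + 2 * R := by ring
          linarith only [c2, hqb2, hqC, e4, hCR, hTgp, hgpT, hKgp, hgp0, hR])).mono ?_
      have e3 : δ * ν₀ / 4 * (2 * R) = δ * ν₀ * R / 2 := by ring
      rw [e3]
      exact hδqb)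
    H4b
  have he' : 0 < min e₀ (gp / 8) := lt_min he₀ (by linarith)
  have a2 := HP (min e₀ (gp / 8)) he' (min_le_left _ _) (K + 1) (sn b r) (by linarith)
  -- the change of the labels
  obtain ⟨h₂, hh₂⟩ : ∃ h₂ : ℝ, h₂ = e * R / (4 * (((r + 1) * (K + 1 + 1) : ℕ) + 1)) := ⟨_, rfl⟩
  have hh₂0 : 0 < h₂ := by rw [hh₂]; positivity
  have hpr : sn w r - gp ≤ p r := by linarith [hp r hr le_rfl]
  have hbr : sn w r - 2 * gp ≤ sn b r := by linarith [hhi r hr le_rfl]
  have hmin : sn w r - 2 * gp ≤ min (sn b r) (p r) := le_min hbr (by linarith)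
  have a4 : F1 S (fun J F => ptr F J) (vg x) y
      ((qJets m c r₀ r (K + 2) (fun _ _ => w) (fun l _ => p l)
        (fun l j' => n l - (j' : ℝ) * w)).prod
      (qJets m c r (r + 1) (K + 1) (fun _ _ => b) (fun _ _ => sn b r)
        (fun _ j => sn b r + qb - (j : ℕ) * b)))
      (qJets m c r (r + 1) (K + 1) (fun _ _ => w) (fun _ _ => p r)
        (fun _ j => sn w r + q - (j : ℕ) * w)) (gp / 8)
      (((r + 1) * (K + 1 + 1) : ℕ) * h₂) := by
    refine F1.qjets htm hh₂0.le fun i a b' j hj => ?_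
    obtain rfl : i = r := by omega
    refine pull_tgt (J' := K + 2) (J'' := K + 1) htm (by omega) hj ?_
    refine (chg (y := y) (f := fun J F => ptr F J) htm hch hΛ (by linarith) hgp0 HB (pv := p)
      (fun l a b => by
        show sn w l - gp ≤ p l
        linarith [hp l a b.le])
      (Nv := fun l j' => n l - (j' : ℝ) * w) (j := j)
      (fun l a b j' hj' => by linarith [hnn1 l a b]) (k := c i) (w₁ := b) (w₂ := w)
      (p₁ := sn b i) (p₂ := p i) (N₁ := sn b i + qb - (j : ℕ) * b)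
      (N₂ := sn w i + q - (j : ℕ) * w) b2 le_rfl ?_ ?_ (fun l a b' => ?_) h.pt
      (gch_kn h hwB.le) hh₂0).up hwx hx1
    · rw [hqb]
      have : (j : ℝ) * b ≤ j * w := mul_le_mul_of_nonneg_left b2 (Nat.cast_nonneg j)
      linarith
    · linarith
    · show sn w i + q - (j : ℕ) * w + (j : ℕ) * w + 11 * gp ≤ min (sn b i) (p i) +
        (nn l - sn w l)
      rw [hnl]
      linarith [(hli l b').1]
  have hex : Exs S (qJets m c r (r + 1) (K + 1) (fun _ _ => b) (fun _ _ => sn b r)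
      (fun _ j => sn b r + qb - (j : ℕ) * b)) :=
    exs_qjets fun l a b' j' _ => by
      obtain rfl : l = r := by omega
      exact gch_exs h hb hbA hbB hr le_rfl j' _
  have a3 := F1.cut htm hex he' a2 (a4.mono (min_le_right _ _) le_rfl)
  have hη : e / (2 * (C + 1)) * qb + (((r + 1) * (K + 1 + 1) : ℕ) : ℝ) * h₂ < e * R := by
    have e1 : e / (2 * (C + 1)) * qb ≤ e / (2 * (C + 1)) * ((C + 1) * R) :=
      mul_le_mul_of_nonneg_left (by linarith) (by positivity)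
    have e2 : e / (2 * (C + 1)) * ((C + 1) * R) = e * R / 2 := by
      field_simp
    have e3 : (((r + 1) * (K + 1 + 1) : ℕ) : ℝ) * h₂ ≤ e * R / 4 := by
      rw [hh₂, mul_div_assoc', div_le_iff₀ (by positivity)]
      have : 0 < e * R := by positivity
      linarith only [this]
    have := mul_pos he hR
    linarith
  exact cdC_mono (N := sn w r + q) (θ := e * R) ⟨min e₀ (gp / 8), he', fun K₀ E' =>
    cod_Fj_p htm (by linarith) hwx hx1 (gch_yT h) K a3 hη K₀ E'⟩ hN le_rfl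



/-- **Two near places** `v`, `v + 1` below the target `v + 2`, no condition on the order of their
slopes. -/
theorem jt_atV2 {s₀ : ℝ} {v : ℕ} (hS : SlpG sn r₀ (v + 2) G g Sl) (hr : r₀ ≤ v)
    (hS1 : ∀ l, r₀ ≤ l → l ≤ v + 2 → 1 ≤ Sl l) {hd : ℝ} (hh : 0 < hd) (hh1 : hd ≤ 1)
    (hraw : RawG S c sn G g hd (v + 2)) {e C ν₀ : ℝ} (he : 0 < e)
    (hC : 0 < C) (hν : 0 < ν₀) :
    ∃ Cn κ : ℝ, 0 < Cn ∧ 0 < κ ∧
    ∀ (γ : ∀ J : ℕ, Fam m J → Type) (y : ∀ (J : ℕ) (F : Fam m J), F.Ω → γ J F) (A B Λ : ℝ),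
    GCh S (fun J F => ptr F J) y c r₀ (v + 2) s₀ A B Λ sn G → A < g → g < B →
    ∃ ρ : ℝ, 0 < ρ ∧ ∀ R : ℝ, 0 < R → R < ρ →
    LbR S c r₀ K sn G g (Cn * R) (2 * R) (κ * R) (v + 2) →
    ∀ w ∈ G, g - R ≤ w → ∀ x : ℝ, w ≤ x → x ≤ g + R → ∀ (p n : ℕ → ℝ) (q N : ℝ),
    (∀ l, r₀ ≤ l → l ≤ v + 2 → sn w l - κ * R ≤ p l) →
    (∀ l, r₀ ≤ l → l < v → sn w l + Cn * R ≤ n l) →
    sn w v + q + 2 * (ν₀ * R) ≤ n v → Sl v * (x - w) ≤ q →
    sn w (v + 1) + q + ν₀ * R ≤ n (v + 1) → Sl (v + 1) * (x - w) ≤ q →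
    Sl v ≤ Sl (v + 2) → Sl (v + 1) ≤ Sl (v + 2) → ν₀ * R ≤ q → q ≤ C * R →
    q + ν₀ * R ≤ Sl (v + 2) * (x - w) → N ≤ sn w (v + 2) + q →
    CdC S y c (v + 2) K 0 w x (p (v + 2)) N (e * R)
      (qJets m c r₀ (v + 2) (K + 2) (fun _ _ => w) (fun l _ => p l)
        (fun l j' => n l - (j' : ℝ) * w)) := by
  obtain ⟨Se, hSe⟩ : ∃ Se : ℕ → ℝ, Se = fun l => if l = v + 1 then max (Sl v) (Sl (v + 1)) else Sl l :=
    ⟨_, rfl⟩
  have s1 : Se (v + 1) = max (Sl v) (Sl (v + 1)) := by rw [hSe]; exact if_pos rfl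
  have s2 : ∀ l, l ≠ v + 1 → Se l = Sl l := fun l hl => by rw [hSe]; exact if_neg hl
  obtain ⟨Cn, κ, h1, h2, H⟩ := jt_atY (K := K) (s₀ := s₀) v (Se := Se) hS (by omega)
    (fun l a b => by
      rcases eq_or_ne l (v + 1) with h | h
      · rw [h, s1]
        exact le_max_right _ _
      · rw [s2 l h])
    (fun l a b _ => s2 l (by omega)) hS1 hh hh1 hraw he hC hν
  refine ⟨Cn, κ, h1, h2, ?_⟩
  intro γ y A B Λ h hA hB
  obtain ⟨ρ, hρ, H'⟩ := H γ y A B Λ h hA hB
  refine ⟨ρ, hρ, ?_⟩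
  intro R hR hRρ hlb w hw w1 x hwx x2 p n q N hp hn1 hn2 hx2 hn3 hx3 hm1 hm2 hq1 hqC hqx hN
  have hxw : 0 ≤ x - w := by linarith
  have hm : max (Sl v) (Sl (v + 1)) * (x - w) ≤ q := by
    rcases max_cases (Sl v) (Sl (v + 1)) with ⟨e, -⟩ | ⟨e, -⟩ <;> rw [e] <;> assumption
  refine H' R hR hRρ hlb w hw w1 x hwx x2 p n q N hp (fun l a b b' => hn1 l a b)
    (fun l a b b' => ?_) (fun l l' a b hl hl' => ?_) (fun l a b b' => ?_) hq1 hqC hqx hN
  · have h3 : l = v ∨ l = v + 1 := by omega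
    rcases h3 with rfl | rfl
    · have h5 : ((l + 2 : ℕ) : ℝ) - l = 2 := by
        push_cast
        ring
      rw [h5, s2 l (by omega)]
      exact ⟨hn2, hx2⟩
    · have h5 : ((v + 2 : ℕ) : ℝ) - (v + 1 : ℕ) = 1 := by
        push_cast
        ring
      rw [h5, one_mul, s1]
      exact ⟨hn3, hm⟩
  · have h3 : l = v ∨ l = v + 1 := by omega
    rcases h3 with rfl | rfl
    · rcases hl.eq_or_lt with h4 | h4
      · rw [← h4]
      · have h5 : l' = l + 1 := by omega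
        rw [h5, s1, s2 l (by omega)]
        exact le_max_left _ _
    · have h5 : l' = v + 1 := by omega
      rw [h5]
  · have h3 : l = v ∨ l = v + 1 := by omega
    rcases h3 with rfl | rfl
    · rw [s2 l (by omega)]
      exact hm1
    · rw [s1]
      exact max_le hm1 hm2

end Pool.JTY
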