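import Pool.Agent.H66.JT.Msy
import Pool.Agent.H71.CDX.Cdo

/-!
# All jets of the target, the digits of the chain depend on the window

`jt_Qy`: as helper71's `jt_Q`. `jt_F1Y`: as `jt_F1Q`, with effective slopes of the places of the chain
which are larger than the slopes.
-/

set_option autoImplicit false

namespace Pool.JTY

open Finset Real MvPolynomial
open Pool.Agent.H49.Ent Pool.Agent.H32.Dense Pool.STK Pool.KA Pool.KSAT Pool.K2S Pool.PB Pool.GEN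
open Pool.S6C Pool.RCD Pool.LA91 Pool.OWN68 Pool.CHT Pool.AJW Pool.AJX Pool.CDX
open Pool.GRD (LbP)
open Pool.UNJ (ceI Tub)

/-- **All jets of the target over labels of precision `≥ Pv r (b 0) - φ`**, from a context. -/
theorem jt_Qy (K : ℕ) {h : ℝ} (hh : 0 < h) (hh1 : h ≤ 1) {ε : ℝ}
    (hε : 0 < ε) : ∃ δ : ℝ, 0 < δ ∧ ∀ {m : ℕ} {S : PCl m} {C₀ : ℝ} (_ : TmC S C₀)
    {c : ℕ → Fin m} {r₀ r : ℕ} {b : ℕ → ℝ} {M : ℕ} {Pv D : ℕ → ℝ → ℝ} {n : ℕ → ℝ}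
    {Ub ρ : ℝ} (_ : MshY S c r₀ r b M Pv D n Ub ρ)
    {q g₀ : ℝ} {E rd N : ℕ → ℝ}
    (_ : ∀ i, r₀ ≤ i → i ≤ r → 0 ≤ E i ∧ E i ≤ 1) (_ : 0 < q) (_ : 0 ≤ Pv r (b 0)) (_ : 0 < g₀)
    (_ : Pv r (b 0) + q + E r + g₀ ≤ 1) (_ : ∀ i, r₀ ≤ i → i ≤ r → 0 ≤ rd i ∧ rd i + g₀ ≤ 1)
    (_ : ∀ i, r₀ ≤ i → i < r → n i + E i + g₀ ≤ 1) (_ : Ub < 1) (_ : b 0 + q ≤ 1)
    (_ : ∀ i, r₀ ≤ i → i < r → TgtY r₀ i b M Pv D Ub ρ (N i) ∧ N i ≤ n i)
    (_ : TgtY r₀ r b M Pv D Ub ρ (Pv r (b 0) + q))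
    (_ : ∑ i ∈ Finset.Ico r₀ r, (Pv i (b M) - N i) ≤ δ * q)
    {lv : ℕ → ℝ} {σ₀ φ : ℝ} (_ : TwoN r₀ r (b 0) Ub σ₀ (fun l => Pv l (b 0)) n lv)
    (_ : 0 ≤ φ) (_ : φ < σ₀) (_ : q + σ₀ ≤ Ub - b 0) (_ : ∀ l, r₀ ≤ l → l < r → q + σ₀ ≤ lv l)
    {U₀ : Type} {Qu : Qt m U₀} {α γ : ∀ J : ℕ, Fam m J → Type}
    {f : ∀ (J : ℕ) (F : Fam m J), F.Ω → α J F} {y : ∀ (J : ℕ) (F : Fam m J), F.Ω → γ J F}
    (_ : ∀ (J : ℕ) (F : Fam m J), ∃ φ : α J F → PtT F, ∀ ω, ptr F J ω = φ (f J F ω))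
    (_ : Kn ((range r₀).image c) Ub (Ub - b 0) y) {a e₁ : ℝ} (_ : b M ≤ a) (_ : a ≤ 1)
    (_ : 0 < e₁) (_ : ∀ e : ℝ, 0 < e → e ≤ e₁ →
      FwX S f (vg a) y Qu c r₀ (r + 1) K E (b 0) rd (fun l => Pv l (b 0))
        (ctx c r₀ r K (b 0) (Ub - b 0) n) e (δ * q))
    (_ : ∀ q' : ℝ, 0 ≤ q' → q' ≤ q →
      RawN S ((range r).image c) (c r) (Pv r (b 0)) q' h (δ * q))
    (_ : ∀ e : ℝ, 0 < e → Bas S (fun J F A => ∃ (V : Type) (z : PtT F → V) (z' : LnT F → V)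
      (g : V → ℕ → MvPolynomial (Option (Fin m)) ℝ),
      LbX F c r₀ (r + 1) K e E (b 0) rd (fun l => Pv l (b 0)) A z z' g)),
    ∃ e₀ : ℝ, 0 < e₀ ∧ e₀ ≤ e₁ ∧ ∀ e : ℝ, 0 < e → e ≤ e₀ → ∀ (Jm : ℕ) (Pt : ℝ),
      Pv r (b 0) - φ ≤ Pt → F1 S f (vg a) y Qu (qJets m c r (r + 1) Jm (fun _ _ => b 0)
        (fun _ _ => Pt) (fun _ j => Pv r (b 0) + q - (j : ℕ) * b 0)) e (ε * q) := by
  classical
  obtain ⟨δ, hδ, H⟩ := path_msy K hh hh1 (ε := ε / 2) (by positivity)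
  refine ⟨δ, hδ, ?_⟩
  intro m S C₀ htm c r₀ r b M Pv D n Ub ρ HM q g₀ E rd N hE hq hp0 hg₀ hpq hrd hn1 hU1 hbq hN hNr
    hsum lv σ₀ φ HT hφ0 hφ hqU hqlv U₀ Qu α γ f y hf hy a e₁ hba ha he₁ hctx hraw hlb
  have hb0 : b 0 ≤ b M := HM.bmono (Nat.zero_le M) le_rfl
  have hbU : b 0 < Ub := lt_of_le_of_lt hb0 HM.bU
  have e3 : b 0 + (Ub - b 0) = Ub := by ring
  have hy0 : Kn0 ((range r₀).image c) Ub y := by
    intro J F
    obtain ⟨φ, hφ⟩ := hy J F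
    exact ⟨fun x => ((φ x).1, (φ x).2.1), fun ω => by
      show ((φ (y J F ω)).1, (φ (y J F ω)).2.1) = _
      rw [hφ ω]⟩
  have hyT : ∀ (J : ℕ) (F : Fam m J), ∃ φ : γ J F → ℕ, ∀ ω, F.T ω = φ (y J F ω) := by
    intro J F
    obtain ⟨φ, hφ⟩ := hy J F
    exact ⟨fun x => (φ x).1, fun ω => (congrArg Prod.fst (hφ ω)).symm⟩
  obtain ⟨u₁, rw₀, hch, hrw₀⟩ := HM.chn 0 (Nat.zero_le M)
  obtain ⟨e₀, he₀, he₀1, HP⟩ := H htm HM hE hq hp0 hg₀ hpq hrd hn1 hU1 hbq hN hNr hsum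
    (Qu := Qu) (f := f) (y := y) (a := a) (e₁ := e₁) hf hy0 hba ha he₁ hctx hraw
  refine ⟨min e₀ ((σ₀ - φ) / 8), lt_min he₀ (by linarith), (min_le_left _ _).trans he₀1,
    fun e he hle Jm Pt hPt => ?_⟩
  have hle0 : e ≤ e₀ := hle.trans (min_le_left _ _)
  have hle1 : e ≤ (σ₀ - φ) / 8 := hle.trans (min_le_right _ _)
  refine path_F1 K htm (fun i x y => (hE i x y).2) HM.hr HM.b0 (hb0.trans hba) ha he (fun i x y => (hrd i x y).1) hyT
    (HP e he hle0) (hlb e he) (j := Jm) (h' := ε / 4 * q)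
    ((F1.pull htm (fun u => u) ?_ (tgt_jets_r (P := Pv r (b 0)) htm hch (hb0.trans hba) ha
      (by linarith) (by linarith) hφ0 hφ hPt HT.lv0 HT.h1 HT.h2 HT.h3 (by linarith)
      (fun l x y => by linarith [hqlv l x y]) hf (by rw [e3]; exact hy) Jm
      (h := ε / 4 * q) (by positivity))).mono hle1 le_rfl) (by nlinarith)
  intro K e J F A u hu
  refine ⟨hu.1, fun i x y j' hj' => ?_, hu.2.2⟩
  have h1 := hu.2.1 i x y j' hj'
  obtain rfl : i = r := by omega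
  exact h1

/-- **All jets of the target** over labels of the window `w`, from a context; the depth of the place `i`
of the chain decreases at the rate of the effective slope `Se i ≥ Sl i`. -/
theorem jt_F1Y (K : ℕ) {h : ℝ} (hh : 0 < h) (hh1 : h ≤ 1) {ε : ℝ} (hε : 0 < ε) (r : ℕ) :
    ∃ δ : ℝ, 0 < δ ∧
    ∀ {m : ℕ} {S : PCl m} {c : ℕ → Fin m} {r₀ : ℕ} {sn : ℕ → ℝ → ℝ} {G : Set ℝ} {b o φ Sb : ℝ}
      {Sl Se : ℕ → ℝ}, LdS S c r₀ r sn G b o φ Sl Sb →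
      (∀ l, r₀ ≤ l → l < r → Sl l ≤ Se l ∧ Se l ≤ Sb) → ∀ {α γ : ∀ J : ℕ, Fam m J → Type}
    {f : ∀ (J : ℕ) (F : Fam m J), F.Ω → α J F} {y : ∀ (J : ℕ) (F : Fam m J), F.Ω → γ J F},
    (∀ (J : ℕ) (F : Fam m J), ∃ χ : α J F → PtT F, ∀ ω, ptr F J ω = χ (f J F ω)) →
    ∀ {w x a Ub q g₀ e₁ : ℝ} {n E rd : ℕ → ℝ} {U : Type} {Q : Qt m U},
    Kn ((range r₀).image c) Ub (Ub - w) y →
    w ∈ G → x ∈ G → b ≤ w → w ≤ x → x ≤ o → x ≤ a → a ≤ 1 → x < Ub → Ub < 1 → 0 < q → 0 < g₀ →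
    0 ≤ sn r w → sn r w + q + E r + g₀ ≤ 1 → w + q ≤ 1 →
    (∀ i, r₀ ≤ i → i ≤ r → 0 ≤ E i ∧ E i ≤ 1) → (∀ i, r₀ ≤ i → i ≤ r → 0 ≤ rd i ∧ rd i + g₀ ≤ 1) →
    (∀ i, r₀ ≤ i → i < r → n i + E i + g₀ ≤ 1) →
    0 < e₁ → (∀ e : ℝ, 0 < e → e ≤ e₁ → FwX S f (vg a) y Q c r₀ (r + 1) K E w rd
      (fun l => sn l w) (ctx c r₀ r K w (Ub - w) n) e (δ * q)) →
    (∀ i, r₀ ≤ i → i < r → sn i x + (Se i - Sl i) * (x - w) + 20 * Sb * φ ≤ n i) →
    (∀ i, r₀ ≤ i → i < r → n i + 20 * Sb * φ ≤ sn i w + (Ub - w)) →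
    (∀ i, r₀ ≤ i → i < r → ∀ l, r₀ ≤ l → l < i →
      n i - sn i w + max 0 (Se l - Se i) * (x - w) + 20 * Sb * φ ≤ n l - sn l w) →
    (∀ i, r₀ ≤ i → i < r →
      q + max 0 (Se i - Sl r) * (x - w) + 20 * Sb * φ ≤ n i - sn i w) →
    sn r w + q + 20 * Sb * φ ≤ sn r x → q + 20 * Sb * φ ≤ Ub - w →
    (r : ℝ) * φ ≤ δ * q →
    (∀ q' : ℝ, 0 ≤ q' → q' ≤ q →
      RawN S ((range r).image c) (c r) (sn r w) q' h (δ * q)) →
    (∀ e : ℝ, 0 < e → Bas S (fun J F A => ∃ (V : Type) (z : PtT F → V) (z' : LnT F → V)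
      (g : V → ℕ → MvPolynomial (Option (Fin m)) ℝ),
      LbX F c r₀ (r + 1) K e E w rd (fun l => sn l w) A z z' g)) →
    ∃ e₀ : ℝ, 0 < e₀ ∧ ∀ e : ℝ, 0 < e → e ≤ e₀ → ∀ (Jm : ℕ) (Pt : ℝ), sn r w - φ ≤ Pt →
      F1 S f (vg a) y Q (qJets m c r (r + 1) Jm (fun _ _ => w)
        (fun _ _ => Pt) (fun _ j => sn r w + q - (j : ℕ) * w)) e (ε * q) := by
  obtain ⟨δ, hδ, H⟩ := jt_Qy K hh hh1 (ε := ε) hε
  refine ⟨δ, hδ, ?_⟩
  intro m S c r₀ sn G b o φ Sb Sl Se L hSe α γ f y hf w x a Ub q g₀ e₁ n E rd U Q hy hw hx hbw hwx hxo hxa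
    ha1 hxU hU1 hq hg₀ hs0 hs1 hwq hE hrd hn1 he₁ hctx hnx hnU hnn hnq hqx hqU hφδ hraw hlb
  obtain ⟨C₀, htm⟩ := L.tm
  have hφ := L.φ0
  obtain ⟨hSr, hSb⟩ := L.S1 r L.rr le_rfl
  have hSb1 : 1 ≤ Sb := hSr.trans hSb
  have hSφ : φ ≤ Sb * φ := by nlinarith
  obtain ⟨M, B, hB0, hBM, hBG, hBs⟩ := gap_mesh hφ L.gap hw hx hbw hwx hxo
  have hw0 : 0 ≤ w := L.b0.trans hbw
  have hwo : w ≤ o := hwx.trans hxo
  -- the mesh and the levels
  have u1 : ∀ i, r₀ ≤ i → i ≤ r → ∀ k ≤ M, sn i w + Sl i * (B k - w) - φ ≤ sn i (B k) ∧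
      sn i (B k) ≤ sn i w + Sl i * (B k - w) + φ := fun i h0 h1 k hk => by
    obtain ⟨h2, h3, h4⟩ := hBG k hk
    exact L.up h0 h1 hw h2 hbw h3 (h4.trans hxo)
  have ux : ∀ i, r₀ ≤ i → i ≤ r → sn i w + Sl i * (x - w) - φ ≤ sn i x ∧
      sn i x ≤ sn i w + Sl i * (x - w) + φ := fun i h0 h1 => L.up h0 h1 hw hx hbw hwx hxo
  have hS : ∀ i, r₀ ≤ i → i ≤ r → ∀ t : ℝ, 0 ≤ t → t ≤ Sl i * t := fun i h0 h1 t ht => by
    have := mul_le_mul_of_nonneg_right (L.S1 i h0 h1).1 ht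
    linarith
  have hS4 : ∀ i, r₀ ≤ i → i ≤ r → ∀ k < M, Sl i * (B (k + 1) - w) ≤ Sl i * (B k - w) + 4 * (Sb * φ) :=
    fun i h0 h1 k hk => by
      obtain ⟨h2, h3⟩ := L.S1 i h0 h1
      have e1 : Sl i * (B (k + 1) - B k) ≤ Sl i * (4 * φ) :=
        mul_le_mul_of_nonneg_left (by linarith [(hBs k hk).2]) (by linarith)
      have e2 : Sl i * (4 * φ) ≤ Sb * (4 * φ) := mul_le_mul_of_nonneg_right h3 (by positivity)
      nlinarith
  have hSm : ∀ i, r₀ ≤ i → i ≤ r → ∀ k < M, Sl i * (B k - w) ≤ Sl i * (B (k + 1) - w) :=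
    fun i h0 h1 k hk => mul_le_mul_of_nonneg_left (by linarith [(hBs k hk).1])
      (by linarith [(L.S1 i h0 h1).1])
  -- the difference of two slopes
  have hdf : ∀ a : ℝ, ∀ k ≤ M, a * (B k - w) ≤ max 0 a * (x - w) :=
    fun a k hk => by
      obtain ⟨h2, h3, h4⟩ := hBG k hk
      calc a * (B k - w) ≤ max 0 a * (B k - w) :=
            mul_le_mul_of_nonneg_right (le_max_right _ _) (by linarith)
        _ ≤ max 0 a * (x - w) :=
            mul_le_mul_of_nonneg_left (by linarith) (le_max_left _ _)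
  -- the excess of the effective slope
  have hd0 : ∀ l, r₀ ≤ l → l < r → ∀ k ≤ M, 0 ≤ (Se l - Sl l) * (B k - w) ∧
      (Se l - Sl l) * (B k - w) ≤ (Se l - Sl l) * (x - w) := fun l h0 h1 k hk => by
    obtain ⟨h2, h3, h4⟩ := hBG k hk
    have h5 := (hSe l h0 h1).1
    exact ⟨mul_nonneg (by linarith) (by linarith),
      mul_le_mul_of_nonneg_left (by linarith) (by linarith)⟩
  obtain ⟨D, hD⟩ : ∃ D : ℕ → ℝ → ℝ, D = fun l β => n l - (Se l - Sl l) * (β - w) := ⟨_, rfl⟩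
  have hDl : ∀ l β, D l β = n l - (Se l - Sl l) * (β - w) := fun l β => by rw [hD]
  have HM : MshY S c r₀ r B M sn D n Ub φ := by
    constructor
    · exact L.rr
    · exact hφ
    · rw [hB0]; exact hw0
    · exact fun k hk => (hBs k hk).1
    · rw [hBM]; exact hxU
    · exact hU1.le
    · intro k hk
      obtain ⟨h2, h3, h4⟩ := hBG k hk
      obtain ⟨u₁, rv, hrv, hcv⟩ := L.ch (B k) h2 (hbw.trans h3) (h4.trans hxo)
      exact ⟨u₁, rv, hcv, hrv⟩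
    · intro k hk i h0 h1 N
      obtain ⟨h2, h3, h4⟩ := hBG k hk
      exact L.exs h2 (hbw.trans h3) (h4.trans hxo) h0 h1 0 N
    · intro l _ _
      rw [hDl, hB0]
      linarith
    · intro k hk l h0 h1
      have e1 := (hBs k hk).1
      have e2 : (Se l - Sl l) * (B k - w) ≤ (Se l - Sl l) * (B (k + 1) - w) :=
        mul_le_mul_of_nonneg_left (by linarith) (by linarith [(hSe l h0 h1).1])
      rw [hDl, hDl]
      linarith
    · intro k hk l h0 h1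
      obtain ⟨h2, h3, h4⟩ := hBG k hk
      have e1 := (u1 l h0 h1.le k hk).2
      have e2 := (ux l h0 h1.le).1
      have e3 : Sl l * (B k - w) ≤ Sl l * (x - w) :=
        mul_le_mul_of_nonneg_left (by linarith) (by linarith [(L.S1 l h0 h1.le).1])
      have e4 := hnx l h0 h1
      have e5 := (hd0 l h0 h1 k hk).2
      rw [hDl]
      linarith
    · intro k hk l h0 h1
      obtain ⟨h2, h3, h4⟩ := hBG k hk
      have e1 := (u1 l h0 h1.le k hk).1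
      have e2 := hS l h0 h1.le (B k - w) (by linarith)
      have e3 := hnU l h0 h1
      have e5 := (hd0 l h0 h1 k hk).1
      rw [hDl]
      linarith
    · intro k hk l h0 h1 l' h0' h1'
      have e1 := (u1 l h0 h1.le k hk).1
      have e2 := (u1 l' h0' (by omega) k hk).2
      have e3 := hdf (Se l' - Se l) k hk
      have e4 := hnn l h0 h1 l' h0' h1'
      have e5 : (Se l' - Se l) * (B k - w) = (Se l' - Sl l') * (B k - w) + Sl l' * (B k - w) -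
        (Se l - Sl l) * (B k - w) - Sl l * (B k - w) := by ring
      rw [hDl, hDl]
      linarith
    · intro k hk l h0 h1
      obtain ⟨h2, h3, h4⟩ := hBG k hk.le
      obtain ⟨h5, h6, h7⟩ := hBG (k + 1) hk
      obtain ⟨h8, h9⟩ := hBs k hk
      have e1 := (u1 l h0 h1.le k hk.le).1
      have e2 := (u1 l h0 h1.le (k + 1) hk).1
      have e3 := hS l h0 h1.le (B k - w) (by linarith)
      have e4 := hS l h0 h1.le (B (k + 1) - w) (by linarith)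
      have e5 := hnU l h0 h1
      have e6 := (hd0 l h0 h1 (k + 1) hk).1
      have : n l + φ - (Ub - B (k + 1)) ≤ min (sn l (B k)) (sn l (B (k + 1))) :=
        le_min (by linarith) (by linarith)
      rw [hDl]
      linarith
    · intro k hk l h0 h1 l' h0' h1'
      have e1 := (u1 l h0 h1.le k hk.le).1
      have e2 := (u1 l h0 h1.le (k + 1) hk).1
      have e3 := (u1 l' h0' (by omega) (k + 1) hk).2
      have e4 := hdf (Se l' - Se l) (k + 1) hk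
      have e5 := hnn l h0 h1 l' h0' h1'
      have e6 := hS4 l h0 h1.le k hk
      have e7 := hSm l h0 h1.le k hk
      have e8 : (Se l' - Se l) * (B (k + 1) - w) = (Se l' - Sl l') * (B (k + 1) - w) +
        Sl l' * (B (k + 1) - w) - (Se l - Sl l) * (B (k + 1) - w) -
        Sl l * (B (k + 1) - w) := by ring
      rw [hDl, hDl]
      have : n l - (Se l - Sl l) * (B (k + 1) - w) + 2 * φ -
          (n l' - (Se l' - Sl l') * (B (k + 1) - w) - sn l' (B (k + 1))) ≤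
          min (sn l (B k)) (sn l (B (k + 1))) :=
        le_min (by linarith) (by linarith)
      linarith
  have hN : ∀ i, r₀ ≤ i → i < r →
      TgtY r₀ i B M sn D Ub φ (sn i x - φ) ∧ sn i x - φ ≤ n i := by
    intro i h0 h1
    have g1 := (ux i h0 h1.le).2
    have g2 := hnx i h0 h1
    have g3 := hnU i h0 h1
    have g4 : 0 ≤ (Se i - Sl i) * (x - w) :=
      mul_nonneg (by linarith [(hSe i h0 h1).1]) (by linarith)
    refine ⟨⟨?_, fun k hk => ?_, fun k hk l h0' h1' => ?_⟩, by linarith⟩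
    · rw [hBM]; linarith
    · obtain ⟨h2, h3, h4⟩ := hBG k hk.le
      obtain ⟨h5, h6, h7⟩ := hBG (k + 1) hk
      obtain ⟨h8, h9⟩ := hBs k hk
      have e1 := (u1 i h0 h1.le k hk.le).1
      have e2 := (u1 i h0 h1.le (k + 1) hk).1
      have e3 := hS i h0 h1.le (B k - w) (by linarith)
      have e4 := hS i h0 h1.le (B (k + 1) - w) (by linarith)
      have : sn i x - φ + φ - (Ub - B (k + 1)) ≤ min (sn i (B k)) (sn i (B (k + 1))) :=
        le_min (by linarith) (by linarith)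
      linarith
    · have hlr : l < r := by omega
      obtain ⟨h2, h3, h4⟩ := hBG k hk.le
      obtain ⟨h5, h6, h7⟩ := hBG (k + 1) hk
      obtain ⟨h8, h9⟩ := hBs k hk
      have e1 := (u1 i h0 h1.le k hk.le).1
      have e2 := (u1 i h0 h1.le (k + 1) hk).1
      have e3 := (u1 l h0' hlr.le (k + 1) hk).2
      have e4 := hnn i h0 h1 l h0' h1'
      have e5 := hS4 i h0 h1.le k hk
      have e6 := (ux i h0 h1.le).1
      -- the worst case is the largest slope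
      have e7 := hdf (Se l - Se i) (k + 1) hk
      have e8 : (Se l - Se i) * (B (k + 1) - w) = (Se l - Sl l) * (B (k + 1) - w) +
        Sl l * (B (k + 1) - w) - (Se i - Sl i) * (B (k + 1) - w) -
        Sl i * (B (k + 1) - w) := by ring
      have e9 := hSm i h0 h1.le k hk
      have e10 := (hd0 i h0 h1 (k + 1) hk).2
      rw [hDl]
      have : sn i x - φ + 2 * φ -
          (n l - (Se l - Sl l) * (B (k + 1) - w) - sn l (B (k + 1))) ≤
          min (sn i (B k)) (sn i (B (k + 1))) := le_min (by linarith) (by linarith)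
      linarith
  have hNr : TgtY r₀ r B M sn D Ub φ (sn r (B 0) + q) := by
    rw [hB0]
    refine ⟨?_, fun k hk => ?_, fun k hk l h0' h1' => ?_⟩
    · rw [hBM]; linarith
    · obtain ⟨h2, h3, h4⟩ := hBG k hk.le
      obtain ⟨h5, h6, h7⟩ := hBG (k + 1) hk
      obtain ⟨h8, h9⟩ := hBs k hk
      have e1 := (u1 r L.rr le_rfl k hk.le).1
      have e2 := (u1 r L.rr le_rfl (k + 1) hk).1
      have e3 := hS r L.rr le_rfl (B k - w) (by linarith)
      have e4 := hS r L.rr le_rfl (B (k + 1) - w) (by linarith)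
      have : sn r w + q + φ - (Ub - B (k + 1)) ≤ min (sn r (B k)) (sn r (B (k + 1))) :=
        le_min (by linarith) (by linarith)
      linarith
    · have e1 := (u1 r L.rr le_rfl k hk.le).1
      have e2 := (u1 r L.rr le_rfl (k + 1) hk).1
      have e3 := (u1 l h0' h1'.le (k + 1) hk).2
      have e4 := hdf (Se l - Sl r) (k + 1) hk
      have e5 := hnq l h0' h1'
      have e6 := hS4 r L.rr le_rfl k hk
      have e7 := hSm r L.rr le_rfl k hk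
      have e8 : (Se l - Sl r) * (B (k + 1) - w) = (Se l - Sl l) * (B (k + 1) - w) +
        Sl l * (B (k + 1) - w) - Sl r * (B (k + 1) - w) := by ring
      rw [hDl]
      have : sn r w + q + 2 * φ -
          (n l - (Se l - Sl l) * (B (k + 1) - w) - sn l (B (k + 1))) ≤
          min (sn r (B k)) (sn r (B (k + 1))) := le_min (by linarith) (by linarith)
      linarith
  have hsum : ∑ i ∈ Finset.Ico r₀ r, (sn i (B M) - (sn i x - φ)) ≤ δ * q := by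
    rw [hBM]
    have e1 : ∑ i ∈ Finset.Ico r₀ r, (sn i x - (sn i x - φ)) = ((r - r₀ : ℕ) : ℝ) * φ := by
      rw [Finset.sum_congr rfl fun i _ => (by ring : sn i x - (sn i x - φ) = φ),
        Finset.sum_const, Nat.card_Ico, nsmul_eq_mul]
    rw [e1]
    refine le_trans (mul_le_mul_of_nonneg_right ?_ hφ.le) hφδ
    exact_mod_cast Nat.sub_le r r₀
  have hmx : ∀ a : ℝ, 0 ≤ max 0 a * (x - w) := fun a =>
    mul_nonneg (le_max_left _ _) (by linarith)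
  have HT : TwoN r₀ r (B 0) Ub (5 * φ) (fun l => sn l (B 0)) n
      (fun l => n l - sn l w - 10 * φ) := by
    rw [hB0]
    refine ⟨by positivity, fun l h0 h1 => ?_, fun l h0 h1 => ?_, fun l h0 h1 => ?_,
      fun l h0 h1 l' h0' h1' => ?_, fun l h0 h1 => ?_, fun l h0 h1 l' h0' h1' => ?_⟩
    · show 0 < n l - sn l w - 10 * φ
      linarith [hnq l h0 h1, hmx (Se l - Sl r)]
    · show sn l w + (n l - sn l w - 10 * φ) + 5 * φ ≤ n l
      linarith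
    · show n l - sn l w - 10 * φ + 5 * φ ≤ Ub - w
      linarith [hnU l h0 h1]
    · show n l - sn l w - 10 * φ + 5 * φ ≤ n l' - sn l' w - 10 * φ
      linarith [hnn l h0 h1 l' h0' h1', hmx (Se l' - Se l)]
    · show n l + 5 * φ ≤ sn l w + (Ub - w)
      linarith [hnU l h0 h1]
    · show n l + 5 * φ ≤ sn l w + (n l' - sn l' w - 10 * φ)
      linarith [hnn l h0 h1 l' h0' h1', hmx (Se l' - Se l)]
  have hδq : 0 < δ * q := by positivity
  obtain ⟨u₁, rw₀, hrw₀, hch⟩ := L.ch w hw hbw hwo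
  obtain ⟨e₀, he₀, -, HP⟩ := H htm HM (q := q) (g₀ := g₀) (E := E) (rd := rd)
    (N := fun i => sn i x - φ) hE hq (by rw [hB0]; exact hs0) hg₀
    (by rw [hB0]; exact hs1) hrd hn1 hU1
    (by rw [hB0]; exact hwq) hN hNr hsum HT hφ.le (by linarith)
    (by rw [hB0]; linarith) (fun l h0 h1 => by
      show q + 5 * φ ≤ n l - sn l w - 10 * φ
      linarith [hnq l h0 h1, hmx (Se l - Sl r)])
    (Qu := Q) (f := f) (y := y) (a := a)
    (e₁ := e₁) hf (by rw [hB0]; exact hy) (by rw [hBM]; exact hxa) ha1 he₁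
    (by rw [hB0]; exact hctx)
    (by rw [hB0]; exact hraw)
    (by rw [hB0]; exact hlb)
  refine ⟨e₀, he₀, fun e he hle Jm Pt hPt => ?_⟩
  have h1 := HP e he hle Jm Pt (by rw [hB0]; exact hPt)
  rw [hB0] at h1
  exact h1

end Pool.JTY
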